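import Mathlib
import Pool.Agent.H16.BB.Amalg
import Pool.Agent.H16.BB.Defs

/-!
Amalgamated products are pushouts in the category of groups with a character; if a group `K` is the
free product of a group `X` and of a copy of itself, and `S` is a functor with a Mayer-Vietoris
property, then finite generation of `R ⊗ S(K)` implies that `R ⊗ S(X)` is zero.
-/

set_option autoImplicit false

namespace Pool.Agent.H11.FG

open CategoryTheory Function Pool.Agent.H16.BB TensorProduct

universe u v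

/-- `1 → X`. -/
def fromOne (X : OGrp) : one ⟶ X := OGrp.Hom.mk 1 (by
  ext x; rw [MonoidHom.comp_apply, MonoidHom.one_apply, map_one]; rfl)

theorem isPushout_of_isAmalg {C A B P : OGrp} (i : C ⟶ A) (j : C ⟶ B) (k : A ⟶ P) (l : B ⟶ P)
    (H : IsAmalg i.f j.f k.f l.f) : IsPushout i j k l := by
  have hw : i ≫ k = j ≫ l := OGrp.Hom.ext H.comm
  have key : ∀ s : Limits.PushoutCocone i j, ∃ m : P ⟶ s.pt, k ≫ m = s.inl ∧ l ≫ m = s.inr := by
    intro s
    have hs : s.inl.f.comp i.f = s.inr.f.comp j.f := congrArg OGrp.Hom.f s.condition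
    obtain ⟨m, hm1, hm2⟩ := H.desc s.pt.G s.inl.f s.inr.f hs
    have hmw : s.pt.w.comp m = P.w := by
      apply H.uniq
      · rw [MonoidHom.comp_assoc, hm1, s.inl.w_f, k.w_f]
      · rw [MonoidHom.comp_assoc, hm2, s.inr.w_f, l.w_f]
    exact ⟨OGrp.Hom.mk m hmw, OGrp.Hom.ext hm1, OGrp.Hom.ext hm2⟩
  refine ⟨⟨hw⟩, ⟨Limits.PushoutCocone.IsColimit.mk hw (fun s => (key s).choose)
    (fun s => (key s).choose_spec.1) (fun s => (key s).choose_spec.2) ?_⟩⟩
  intro s m h1 h2
  refine OGrp.Hom.ext (H.uniq _ _ _ ?_ ?_)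
  · exact congrArg OGrp.Hom.f (h1.trans (key s).choose_spec.1.symm)
  · exact congrArg OGrp.Hom.f (h2.trans (key s).choose_spec.2.symm)

/-- The free product of `X` and `K`, as a pushout over the trivial group. -/
theorem isPushout_one {X K P : OGrp} (k : X ⟶ P) (l : K ⟶ P)
    (H : IsAmalg (1 : Unit →* X.G) (1 : Unit →* K.G) k.f l.f) :
    IsPushout (fromOne X) (fromOne K) k l :=
  isPushout_of_isAmalg _ _ _ _ H

section Hm

variable {P Q : Type u} [AddCommGroup P] [AddCommGroup Q]

theorem hm_zero (s : Hm P Q) : s 0 = 0 := map_zero s.hom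

theorem hm_neg (s : Hm P Q) (x : P) : s (-x) = -s x := map_neg s.hom x

theorem hm_inj (s : Hm P Q) (h : ∀ x, s x = 0 → x = 0) : Injective s.f :=
  (injective_iff_map_eq_zero s.hom).2 h

/-- The homomorphism as a `ℤ`-linear map. -/
abbrev lin (s : Hm P Q) : P →ₗ[ℤ] Q := s.hom.toIntLinearMap

theorem lin_apply (s : Hm P Q) (x : P) : lin s x = s x := rfl

end Hm

/-- With the Mayer-Vietoris property for a square with `S(C) = 0`, the groups `S(A)` and `S(B)`
form a direct sum in `S(P)`. -/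
theorem coprod_injective {S : Fun.{u}} {C A B P : OGrp} {i : C ⟶ A} {j : C ⟶ B} {k : A ⟶ P}
    {l : B ⟶ P} (hmv : Mid S i j k l) (n : ℤ) (hC : ∀ s : S.obj n C, s = 0) :
    Injective ((lin (S.map n k)).coprod (lin (S.map n l))) := by
  rw [injective_iff_map_eq_zero]
  rintro ⟨s, t⟩ h
  rw [LinearMap.coprod_apply, lin_apply, lin_apply] at h
  obtain ⟨a, ha, hb⟩ := (hmv n s (-t)).1 (by rw [hm_neg]; exact eq_neg_of_add_eq_zero_left h)
  rw [hC a, hm_zero] at ha hb
  rw [← ha, Prod.mk_eq_zero]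
  exact ⟨rfl, by rw [← neg_eq_zero, ← hb]⟩

/-- `S(A)` embeds in `S(P)`. -/
theorem map_injective {S : Fun.{u}} {C A B P : OGrp} {i : C ⟶ A} {j : C ⟶ B} {k : A ⟶ P}
    {l : B ⟶ P} (hmv : Mid S i j k l) (n : ℤ) (hC : ∀ s : S.obj n C, s = 0) :
    Injective (S.map n k).f := by
  refine hm_inj _ fun x hx => ?_
  have h1 := (injective_iff_map_eq_zero _).1 (coprod_injective hmv n hC) (x, 0) (by
    rw [LinearMap.coprod_apply, lin_apply, lin_apply, hx, hm_zero, add_zero])
  exact congrArg Prod.fst h1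

section Tensor

variable (R : Type v) [CommRing R]

theorem baseChange_injective [Module.Flat ℤ R] {M N : Type u} [AddCommGroup M] [AddCommGroup N] (f : M →ₗ[ℤ] N)
    (hf : Injective f) : Injective (f.baseChange R) := by
  have h1 := Module.Flat.lTensor_preserves_injective_linearMap (M := R) f hf
  intro x y hxy
  exact h1 hxy

/-- Subgroups of `M` with finitely generated `R ⊗ M`. -/
theorem finite_of_injective [Module.Flat ℤ R] [IsNoetherianRing R] {M N : Type u} [AddCommGroup M] [AddCommGroup N]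
    (f : M →ₗ[ℤ] N) (hf : Injective f) [Module.Finite R (R ⊗[ℤ] N)] :
    Module.Finite R (R ⊗[ℤ] M) :=
  Module.Finite.of_injective (f.baseChange R) (baseChange_injective R f hf)

/-- If `M ⊕ N` embeds in `N` and `R ⊗ N` is finitely generated, then `R ⊗ M = 0`. -/
theorem subsingleton_of_prod [Module.Flat ℤ R] [IsNoetherianRing R] {M N : Type u} [AddCommGroup M] [AddCommGroup N]
    (f : M × N →ₗ[ℤ] N) (hf : Injective f) [Module.Finite R (R ⊗[ℤ] N)] :
    Subsingleton (R ⊗[ℤ] M) := by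
  have h1 := baseChange_injective R f hf
  let e := TensorProduct.prodRight ℤ R R M N
  let g : (R ⊗[ℤ] N) × (R ⊗[ℤ] M) →ₗ[R] R ⊗[ℤ] N :=
    (f.baseChange R).comp (e.symm.toLinearMap.comp (LinearEquiv.prodComm R _ _).toLinearMap)
  exact IsNoetherian.subsingleton_of_prod_injective g
    (h1.comp (e.symm.injective.comp (LinearEquiv.prodComm R _ _).injective))

/-- If `M → N → P` is exact, `R ⊗ M` and `P` are finitely generated, then `R ⊗ N` is finitely
generated. -/
theorem finite_of_exact {M N P : Type u} [AddCommGroup M] [AddCommGroup N] [AddCommGroup P]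
    (f : M →ₗ[ℤ] N) (g : N →ₗ[ℤ] P) (h : ∀ y, g y = 0 ↔ ∃ x, f x = y)
    [Module.Finite R (R ⊗[ℤ] M)] [Module.Finite ℤ P] : Module.Finite R (R ⊗[ℤ] N) := by
  have h1 : Function.Exact f g.rangeRestrict := by
    intro y
    rw [Set.mem_range, ← h y]
    exact ⟨fun hy => congrArg Subtype.val hy, fun hy => Subtype.ext hy⟩
  have h2 : Surjective g.rangeRestrict := g.surjective_rangeRestrict
  have h3 := lTensor_exact R h1 h2
  have h4 : Module.Finite ℤ (LinearMap.range g) := Module.Finite.of_injective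
    (LinearMap.range g).subtype (Submodule.injective_subtype _)
  refine Module.Finite.of_exact (f := f.baseChange R) (g := g.rangeRestrict.baseChange R) ?_
    (LinearMap.lTensor_surjective R h2)
  intro y
  exact h3 y

end Tensor

/-- If `K` is the free product of `X` and of a copy of `K`, then `R ⊗ S(X) = 0` or `R ⊗ S(K)` is
not finitely generated. -/
theorem zero_of_finite (R : Type v) [CommRing R] [Module.Flat ℤ R] [IsNoetherianRing R]
    {S : Fun.{u}} {X K : OGrp} {i : X ⟶ K} {l : K ⟶ K}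
    (hmv : Mid S (fromOne X) (fromOne K) i l) (n : ℤ) (h1 : ∀ s : S.obj n one, s = 0)
    (hK : Module.Finite R (R ⊗[ℤ] S.obj n K)) : Subsingleton (R ⊗[ℤ] S.obj n X) :=
  subsingleton_of_prod R _ (coprod_injective hmv n h1)

/-- The case of the integers. -/
theorem zero_of_finite_int {S : Fun.{u}} {X K : OGrp} {i : X ⟶ K} {l : K ⟶ K}
    (hmv : Mid S (fromOne X) (fromOne K) i l) (n : ℤ) (h1 : ∀ s : S.obj n one, s = 0)
    (hK : Module.Finite ℤ (S.obj n K)) : ∀ s : S.obj n X, s = 0 := by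
  have h2 : Module.Finite ℤ (ℤ ⊗[ℤ] S.obj n K) :=
    Module.Finite.equiv (TensorProduct.lid ℤ (S.obj n K)).symm
  have h3 := zero_of_finite ℤ hmv n h1 h2
  intro s
  have h4 : (TensorProduct.lid ℤ (S.obj n X)).symm s = 0 := h3.elim _ _
  exact (LinearEquiv.map_eq_zero_iff _).1 h4

/-- Passage from the groups `L` to the structure groups. -/
theorem S_finite (R : Type v) [CommRing R] {h L S : Fun.{u}}
    (q : Trans L S) (b : ∀ n X, Hm (S.obj (n + 1) X) (h.obj n X)) (n : ℤ) (X : OGrp)
    (hex : ∀ s, b n X s = 0 ↔ ∃ y, q.app (n + 1) X y = s)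
    (hh : Module.Finite ℤ (h.obj n X)) (hL : Module.Finite R (R ⊗[ℤ] L.obj (n + 1) X)) :
    Module.Finite R (R ⊗[ℤ] S.obj (n + 1) X) :=
  finite_of_exact R (lin (q.app (n + 1) X)) (lin (b n X)) hex

/-- The case of the integers. -/
theorem S_finite_int {h L S : Fun.{u}}
    (q : Trans L S) (b : ∀ n X, Hm (S.obj (n + 1) X) (h.obj n X)) (n : ℤ) (X : OGrp)
    (hex : ∀ s, b n X s = 0 ↔ ∃ y, q.app (n + 1) X y = s)
    (hh : Module.Finite ℤ (h.obj n X)) (hL : Module.Finite ℤ (L.obj (n + 1) X)) :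
    Module.Finite ℤ (S.obj (n + 1) X) := by
  have h2 : Module.Finite ℤ (ℤ ⊗[ℤ] L.obj (n + 1) X) :=
    Module.Finite.equiv (TensorProduct.lid ℤ (L.obj (n + 1) X)).symm
  have h3 := S_finite ℤ q b n X hex hh h2
  exact Module.Finite.equiv (TensorProduct.lid ℤ (S.obj (n + 1) X))

end Pool.Agent.H11.FG
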