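import Mathlib

/-!
If `M × N` embeds in `N`, then an infinite direct sum of copies of `M` embeds in `N`.
-/

set_option autoImplicit false

namespace Pool.Agent.H11.FG

open Function

universe u

section

variable {M N : Type u} [AddCommGroup M] [AddCommGroup N] (f : M × N →ₗ[ℤ] N)

/-- The embedding of the `k`-th summand. -/
private def comp : ℕ → M →ₗ[ℤ] N
  | 0 => f.comp (LinearMap.inl ℤ M N)
  | k + 1 => (f.comp (LinearMap.inr ℤ M N)).comp (comp k)

private theorem sum_succ (x : ℕ →₀ M) :
    Finsupp.lsum ℤ (comp f) x =
      f (x 0, Finsupp.lsum ℤ (comp f) (x.comapDomain Nat.succ Nat.succ_injective.injOn)) := by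
  induction x using Finsupp.induction_linear with
  | zero =>
    have h1 : (0 : ℕ →₀ M).comapDomain Nat.succ Nat.succ_injective.injOn = 0 := by
      ext j
      simp
    rw [h1, LinearMap.map_zero, Finsupp.zero_apply]
    exact (LinearMap.map_zero f).symm
  | add x y hx hy =>
    have h1 : (x + y).comapDomain Nat.succ Nat.succ_injective.injOn =
        x.comapDomain Nat.succ Nat.succ_injective.injOn +
          y.comapDomain Nat.succ Nat.succ_injective.injOn := by
      ext j
      simp
    rw [LinearMap.map_add, hx, hy, h1, LinearMap.map_add, ← LinearMap.map_add f, Prod.mk_add_mk,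
      Finsupp.add_apply]
  | single k m =>
    rw [Finsupp.lsum_single]
    cases k with
    | zero =>
      have h1 : (Finsupp.single 0 m : ℕ →₀ M).comapDomain Nat.succ Nat.succ_injective.injOn = 0 := by
        ext j
        simp
      rw [h1, LinearMap.map_zero, Finsupp.single_eq_same]
      rfl
    | succ k =>
      have h1 : (Finsupp.single (k + 1) m : ℕ →₀ M).comapDomain Nat.succ
          Nat.succ_injective.injOn = Finsupp.single k m := by
        ext j
        simp [Finsupp.single_apply]
      rw [h1, Finsupp.lsum_single, Finsupp.single_eq_of_ne (by omega)]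
      rfl

/-- If `M × N` embeds in `N`, then an infinite direct sum of copies of `M` embeds in `N`. -/
theorem exists_directSum (hf : Injective f) : ∃ g : (ℕ →₀ M) →ₗ[ℤ] N, Injective g := by
  refine ⟨Finsupp.lsum ℤ (comp f), ?_⟩
  rw [injective_iff_map_eq_zero]
  have key : ∀ n : ℕ, ∀ x : ℕ →₀ M, (∀ k, n ≤ k → x k = 0) →
      Finsupp.lsum ℤ (comp f) x = 0 → x = 0 := by
    intro n
    induction n with
    | zero => exact fun x hx _ => Finsupp.ext fun k => hx k (Nat.zero_le k)
    | succ n ih =>
      intro x hx h0
      rw [sum_succ] at h0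
      have h1 := (injective_iff_map_eq_zero f).1 hf _ h0
      rw [Prod.mk_eq_zero] at h1
      have h2 := ih (x.comapDomain Nat.succ Nat.succ_injective.injOn) (fun k hk => by
        rw [Finsupp.comapDomain_apply]
        exact hx _ (Nat.succ_le_succ hk)) h1.2
      ext k
      cases k with
      | zero => exact h1.1
      | succ k =>
        have h3 := DFunLike.congr_fun h2 k
        rwa [Finsupp.comapDomain_apply] at h3
  intro x hx
  obtain ⟨n, hn⟩ := x.support.exists_nat_subset_range
  refine key n x (fun k hk => ?_) hx
  by_contra hne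
  have h1 := hn (Finsupp.mem_support_iff.2 hne)
  rw [Finset.mem_range] at h1
  omega

end

end Pool.Agent.H11.FG
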