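import Mathlib
import Pool.Agent.H11.FG.Sum

/-!
Elements of order `p`: in a group `N` in which `M × N` embeds, and in exact sequences with finitely
generated terms.
-/

set_option autoImplicit false

namespace Pool.Agent.H11.FG

open Function TensorProduct

universe u

/-- If `M × N` embeds in `N` and `N` has only finitely many elements killed by `p`, then `M` has
no nonzero element killed by `p`. -/
theorem no_torsion_of_prod {M N : Type u} [AddCommGroup M] [AddCommGroup N]
    (f : M × N →ₗ[ℤ] N) (hf : Injective f) (p : ℕ) (hN : {x : N | p • x = 0}.Finite) :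
    ∀ x : M, p • x = 0 → x = 0 := by
  intro x hx
  by_contra hne
  obtain ⟨g, hg⟩ := exists_directSum f hf
  refine Set.infinite_of_injective_forall_mem (f := fun k : ℕ => g (Finsupp.single k x))
    (fun a c hac => ?_) (fun k => ?_) hN
  · have h1 := hg hac
    by_contra hac'
    have h2 := DFunLike.congr_fun h1 a
    rw [Finsupp.single_eq_same, Finsupp.single_eq_of_ne hac'] at h2
    exact hne h2
  · change p • g (Finsupp.single k x) = 0
    rw [← map_nsmul, Finsupp.smul_single, hx, Finsupp.single_zero, map_zero]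

private theorem finite_of_ker {M N : Type*} [AddCommGroup M] [AddCommGroup N] (f : M →ₗ[ℤ] N)
    (hk : Module.Finite ℤ (LinearMap.ker f)) (hN : Module.Finite ℤ N) : Module.Finite ℤ M := by
  have h1 : Module.Finite ℤ (LinearMap.range f) := Module.Finite.of_injective
    (LinearMap.range f).subtype (Submodule.injective_subtype _)
  refine Module.Finite.of_exact (f := (LinearMap.ker f).subtype) (g := f.rangeRestrict) ?_
    f.surjective_rangeRestrict
  intro y
  rw [← LinearMap.mem_ker, LinearMap.ker_rangeRestrict]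
  simp

/-- In a finitely generated abelian group there are only finitely many elements of order `p`. -/
theorem torsionBy_finite (M : Type*) [AddCommGroup M] (p : ℕ) (hp : p ≠ 0)
    (hM : Module.Finite ℤ (Submodule.torsionBy ℤ M (p : ℤ))) : {x : M | p • x = 0}.Finite := by
  have h1 : Finite (Submodule.torsionBy ℤ M (p : ℤ)) := by
    refine Module.finite_of_fg_torsion _ ?_
    intro x
    refine ⟨⟨(p : ℤ), mem_nonZeroDivisors_of_ne_zero (by exact_mod_cast hp)⟩, ?_⟩
    exact Subtype.ext x.2
  refine Set.Finite.subset (Set.toFinite (Submodule.torsionBy ℤ M (p : ℤ) : Set M)) ?_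
  intro x hx
  rw [SetLike.mem_coe, Submodule.mem_torsionBy_iff, natCast_zsmul]
  exact hx

/-- Let `H → L → S → H'` be exact, `H` and `H'` finitely generated, and let `L` have only finitely
many elements killed by `p`. Then the same holds for `S`. -/
theorem tors_finite_of_exact {H L S H' : Type*} [AddCommGroup H] [AddCommGroup L] [AddCommGroup S]
    [AddCommGroup H'] (A : H →ₗ[ℤ] L) (q : L →ₗ[ℤ] S) (b : S →ₗ[ℤ] H')
    (hL : ∀ y, q y = 0 ↔ ∃ x, A x = y) (hS : ∀ s, b s = 0 ↔ ∃ y, q y = s)
    (hH : Module.Finite ℤ H) (hH' : Module.Finite ℤ H') (p : ℕ) (hp : p ≠ 0)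
    (hfin : {x : L | p • x = 0}.Finite) : {x : S | p • x = 0}.Finite := by
  let I : Submodule ℤ L := LinearMap.range A
  let N : Submodule ℤ L := I.comap ((p : ℤ) • LinearMap.id)
  have hI : Module.Finite ℤ I := inferInstance
  have hN : Module.Finite ℤ N := by
    let f : N →ₗ[ℤ] I := (((p : ℤ) • LinearMap.id).comp N.subtype).codRestrict I fun x => x.2
    refine finite_of_ker f ?_ hI
    have h1 : Finite (LinearMap.ker f) := by
      have h2 : Finite {x : L | p • x = 0} := hfin
      refine Finite.of_injective (β := {x : L | p • x = 0})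
        (fun x => ⟨x.1.1, ?_⟩) ?_
      · have h3 := congrArg Subtype.val x.2
        change (p : ℤ) • x.1.1 = 0 at h3
        rw [natCast_zsmul] at h3
        exact h3
      · intro x y hxy
        exact Subtype.ext (Subtype.ext (Subtype.mk.inj hxy))
    infer_instance
  refine torsionBy_finite S p hp ?_
  let T : Submodule ℤ S := Submodule.torsionBy ℤ S (p : ℤ)
  refine finite_of_ker (b.comp T.subtype) ?_ hH'
  have hmem : ∀ x : N, q x.1 ∈ T := by
    intro x
    obtain ⟨z, hz⟩ : ∃ z, A z = (p : ℤ) • x.1 := x.2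
    rw [Submodule.mem_torsionBy_iff, ← map_smul, hL]
    exact ⟨z, hz⟩
  let g : N →ₗ[ℤ] LinearMap.ker (b.comp T.subtype) :=
    ((q.comp N.subtype).codRestrict T hmem).codRestrict _ fun x => by
      rw [LinearMap.mem_ker]
      exact (hS (q x.1)).2 ⟨x.1, rfl⟩
  refine Module.Finite.of_surjective g ?_
  intro s
  obtain ⟨y, hy⟩ := (hS s.1.1).1 s.2
  have hyN : y ∈ N := by
    change (p : ℤ) • y ∈ I
    have h1 : (p : ℤ) • s.1.1 = 0 := (Submodule.mem_torsionBy_iff _ _).1 s.1.2
    rw [← hy, ← map_smul, hL] at h1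
    exact h1
  exact ⟨⟨y, hyN⟩, Subtype.ext (Subtype.ext hy)⟩

/-- A group without elements of prime order has no torsion. -/
theorem no_torsion {S : Type*} [AddCommGroup S]
    (hp : ∀ p : ℕ, p.Prime → ∀ x : S, p • x = 0 → x = 0) :
    ∀ n : ℕ, n ≠ 0 → ∀ x : S, n • x = 0 → x = 0 := by
  intro n
  induction n using Nat.recOnMul with
  | zero => exact fun h => absurd rfl h
  | one => exact fun _ x hx => by rwa [one_smul] at hx
  | prime p hpp => exact fun _ => hp p hpp
  | mul a c iha ihc =>
    intro hac x hx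
    rw [mul_smul] at hx
    exact ihc (right_ne_zero_of_mul hac) x (iha (left_ne_zero_of_mul hac) _ hx)

/-- A group `S` without elements of prime order and with `ℚ ⊗ S = 0` is zero. -/
theorem eq_zero_of_rat {S : Type*} [AddCommGroup S] (h : Subsingleton (ℚ ⊗[ℤ] S))
    (hp : ∀ p : ℕ, p.Prime → ∀ x : S, p • x = 0 → x = 0) : ∀ x : S, x = 0 := by
  intro x
  have h1 : TensorProduct.mk ℤ ℚ S 1 x = 0 := h.elim _ _
  rw [IsLocalizedModule.eq_zero_iff (nonZeroDivisors ℤ)] at h1
  obtain ⟨c, hc⟩ := h1
  have hc0 : (c : ℤ) ≠ 0 := nonZeroDivisors.coe_ne_zero c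
  have h2 : (c : ℤ) • x = 0 := hc
  refine no_torsion hp (c : ℤ).natAbs (Int.natAbs_ne_zero.2 hc0) x ?_
  rw [← natCast_zsmul]
  rcases Int.natAbs_eq (c : ℤ) with h3 | h3
  · rw [← h3]
    exact h2
  · rw [h3, neg_smul, neg_eq_zero] at h2
    exact h2

end Pool.Agent.H11.FG
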