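import Mathlib
import Pool.Agent.H16.BB.Kernel
import Pool.Agent.H11.FG.Push
import Pool.Agent.H11.FG.Tors

/-!
For the Bestvina-Brady kernel `K` of a group `X` with a datum, an infinite direct sum of copies of
`S(X)` embeds in `S(K)`.
-/

set_option autoImplicit false

namespace Pool.Agent.H11.FG

open CategoryTheory Function Pool.Agent.H16.BB TensorProduct

universe u v

variable {S : Fun.{u}}

theorem zero_one (hz : ZeroRAAG S) (n : ℤ) (s : S.obj n one) : s = 0 :=
  hz Empty ⊥ one 1 (fun a b _ => Subsingleton.elim (α := Unit) a b) n s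

/-- For the first kernel `K`, the group `S(X) × S(K)` embeds in `S(K)`. -/
theorem exists_prod (hmid : MidExact S) (hz : ZeroRAAG S) (X : OGrp) (D : Datum X.G) (n : ℤ) :
    ∃ f : S.obj n X × S.obj n (kerGrp X D 1) →ₗ[ℤ] S.obj n (kerGrp X D 1), Injective f := by
  obtain ⟨a, b, H⟩ := kerGrp_one_pushout X D
  exact ⟨_, coprod_injective (hmid H (fromOne_injective _) (fromOne_injective _)) n
    (zero_one hz n)⟩

/-- An infinite direct sum of copies of `S(X)` embeds in `S(K)` for the kernel `K`. -/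
theorem exists_infinite_sum (hmid : MidExact S) (hz : ZeroRAAG S) (X : OGrp) (D : Datum X.G)
    (k : ℕ) (hk : 0 < k) (n : ℤ) :
    ∃ g : (ℕ →₀ S.obj n X) →ₗ[ℤ] S.obj n (kerGrp X D k), Injective g := by
  obtain ⟨f, hf⟩ := exists_prod hmid hz X D n
  obtain ⟨g, hg⟩ := exists_directSum f hf
  obtain ⟨c, hc⟩ := kerGrp_chain hmid hz X D k hk
  exact ⟨(lin (S.map n c)).comp g, (hc n).comp hg⟩

/-- If `R ⊗ S(K)` is finitely generated for the kernel `K`, then `R ⊗ S(X) = 0`. -/
theorem zero_of_finite_tensor (R : Type v) [CommRing R] [Module.Flat ℤ R] [IsNoetherianRing R]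
    (hmid : MidExact S) (hz : ZeroRAAG S) (X : OGrp) (D : Datum X.G) (k : ℕ) (hk : 0 < k) (n : ℤ)
    (hfin : Module.Finite R (R ⊗[ℤ] S.obj n (kerGrp X D k))) :
    Subsingleton (R ⊗[ℤ] S.obj n X) := by
  obtain ⟨f, hf⟩ := exists_prod hmid hz X D n
  obtain ⟨c, hc⟩ := kerGrp_chain hmid hz X D k hk
  have h1 : Module.Finite R (R ⊗[ℤ] S.obj n (kerGrp X D 1)) :=
    finite_of_injective R (lin (S.map n c)) (hc n)
  exact subsingleton_of_prod R f hf

/-- If `S(K)` has only finitely many elements killed by `p` for the kernel `K`, then `S(X)` has no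
nonzero elements killed by `p`. -/
theorem no_torsion_of_finite (hmid : MidExact S) (hz : ZeroRAAG S) (X : OGrp) (D : Datum X.G)
    (k : ℕ) (hk : 0 < k) (n : ℤ) (p : ℕ)
    (hfin : {x : S.obj n (kerGrp X D k) | p • x = 0}.Finite) :
    ∀ x : S.obj n X, p • x = 0 → x = 0 := by
  obtain ⟨f, hf⟩ := exists_prod hmid hz X D n
  obtain ⟨c, hc⟩ := kerGrp_chain hmid hz X D k hk
  refine no_torsion_of_prod f hf p ?_
  refine Set.Finite.of_finite_image (hfin.subset ?_) ((hc n).injOn (s := {x | p • x = 0}))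
  rintro _ ⟨x, hx, rfl⟩
  have h1 : p • (lin (S.map n c)) x = 0 := by
    rw [← map_nsmul, hx, map_zero]
  exact h1

end Pool.Agent.H11.FG
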